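import Mathlib

set_option autoImplicit false

namespace Pool.Agent.Results.MP_b358a5_co.Separation

open MvPolynomial

/-- The set `P_d`: nonzero polynomials in the countably many indeterminates `x_0, x_1, ...` with
nonnegative integer coefficients, zero constant term, and degree at most `d` in each single variable. -/
def P (d : ℕ) : Set (MvPolynomial ℕ ℕ) :=
  {f | f ≠ 0 ∧ constantCoeff f = 0 ∧ ∀ n : ℕ, degreeOf n f ≤ d}

/-- A pattern: a finite family `F_1, ..., F_k` of good polynomials (nonnegative integer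
coefficients and zero constant term) in `m` formal variables. -/
structure Pattern where
  /-- the number of formal variables -/
  m : ℕ
  /-- the number of polynomials -/
  k : ℕ
  /-- the polynomials of the family -/
  F : Fin k → MvPolynomial (Fin m) ℕ
  /-- all of them have zero constant term -/
  good : ∀ l, constantCoeff (F l) = 0

/-- The value `F(a_1, ..., a_m)` of a polynomial at a tuple, computed in the polynomial semiring. -/
noncomputable def value {m : ℕ} (F : MvPolynomial (Fin m) ℕ) (a : Fin m → MvPolynomial ℕ ℕ) :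
    MvPolynomial ℕ ℕ :=
  aeval a F

/-- A copy of the pattern in `S`: a tuple of elements of `S` at which all polynomials of the pattern
take values in `S`. -/
def IsCopy (𝓕 : Pattern) (S : Set (MvPolynomial ℕ ℕ)) (a : Fin 𝓕.m → MvPolynomial ℕ ℕ) : Prop :=
  (∀ t, a t ∈ S) ∧ ∀ l, value (𝓕.F l) a ∈ S

/-- The pattern appears in `S`: there is at least one copy. -/
def AppearsIn (𝓕 : Pattern) (S : Set (MvPolynomial ℕ ℕ)) : Prop :=
  ∃ a : Fin 𝓕.m → MvPolynomial ℕ ℕ, IsCopy 𝓕 S a

/-- The pattern is partition regular over `S`: for every finite colouring of `S` there is a copy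
in `S` all of whose values receive the same colour. -/
def PartitionRegular (𝓕 : Pattern) (S : Set (MvPolynomial ℕ ℕ)) : Prop :=
  ∀ (r : ℕ) (χ : S → Fin r), ∃ (a : Fin 𝓕.m → MvPolynomial ℕ ℕ) (h : IsCopy 𝓕 S a) (c : Fin r),
    ∀ l, χ ⟨value (𝓕.F l) a, h.2 l⟩ = c

/-- A stronger property: the copy with values of one colour can moreover be chosen with pairwise
distinct entries and pairwise distinct values. -/
def StronglyPartitionRegular (𝓕 : Pattern) (S : Set (MvPolynomial ℕ ℕ)) : Prop :=
  ∀ (r : ℕ) (χ : S → Fin r), ∃ (a : Fin 𝓕.m → MvPolynomial ℕ ℕ) (h : IsCopy 𝓕 S a) (c : Fin r),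
    (∀ l, χ ⟨value (𝓕.F l) a, h.2 l⟩ = c) ∧
      Function.Injective a ∧ Function.Injective (fun l => value (𝓕.F l) a)

/-- The pattern `{x z, y z, (x + y) z, x ^ i y z}`. -/
noncomputable def sepPattern (i : ℕ) : Pattern where
  m := 3
  k := 4
  F := ![X 0 * X 2, X 1 * X 2, (X 0 + X 1) * X 2, X 0 ^ i * X 1 * X 2]
  good := by
    intro l
    fin_cases l <;> simp

theorem value_zero (i : ℕ) (a : Fin 3 → MvPolynomial ℕ ℕ) :
    value ((sepPattern i).F (0 : Fin 4)) a = a 0 * a 2 := by
  show aeval a (X 0 * X 2 : MvPolynomial (Fin 3) ℕ) = _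
  simp

theorem value_one (i : ℕ) (a : Fin 3 → MvPolynomial ℕ ℕ) :
    value ((sepPattern i).F (1 : Fin 4)) a = a 1 * a 2 := by
  show aeval a (X 1 * X 2 : MvPolynomial (Fin 3) ℕ) = _
  simp

theorem value_two (i : ℕ) (a : Fin 3 → MvPolynomial ℕ ℕ) :
    value ((sepPattern i).F (2 : Fin 4)) a = (a 0 + a 1) * a 2 := by
  show aeval a ((X 0 + X 1) * X 2 : MvPolynomial (Fin 3) ℕ) = _
  simp

theorem value_three (i : ℕ) (a : Fin 3 → MvPolynomial ℕ ℕ) :
    value ((sepPattern i).F (3 : Fin 4)) a = a 0 ^ i * a 1 * a 2 := by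
  show aeval a (X 0 ^ i * X 1 * X 2 : MvPolynomial (Fin 3) ℕ) = _
  simp

/-! ### Number of irreducible factors -/

/-- The image of a polynomial with natural coefficients over the rationals. -/
noncomputable def toQ : MvPolynomial ℕ ℕ →+* MvPolynomial ℕ ℚ := MvPolynomial.map (Nat.castRingHom ℚ)

theorem toQ_injective : Function.Injective toQ :=
  MvPolynomial.map_injective _ Nat.cast_injective

/-- Number of irreducible factors over the rationals, with multiplicity. -/
noncomputable def omega (f : MvPolynomial ℕ ℕ) : ℕ :=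
  Multiset.card (UniqueFactorizationMonoid.factors (toQ f))

theorem toQ_ne_zero {f : MvPolynomial ℕ ℕ} (hf : f ≠ 0) : toQ f ≠ 0 := by
  intro h
  exact hf (toQ_injective (by rw [h, map_zero]))

theorem omega_mul {f g : MvPolynomial ℕ ℕ} (hf : f ≠ 0) (hg : g ≠ 0) :
    omega (f * g) = omega f + omega g := by
  unfold omega
  rw [map_mul, ← Multiset.card_add]
  exact Multiset.card_eq_card_of_rel
    (UniqueFactorizationMonoid.factors_mul (toQ_ne_zero hf) (toQ_ne_zero hg))

theorem omega_pow {f : MvPolynomial ℕ ℕ} (hf : f ≠ 0) (k : ℕ) :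
    omega (f ^ k) = k * omega f := by
  induction k with
  | zero =>
    unfold omega
    rw [pow_zero, map_one]
    simp [UniqueFactorizationMonoid.factors_one]
  | succ k ih =>
    rw [pow_succ, omega_mul (pow_ne_zero k hf) hf, ih]
    ring

theorem omega_of_irreducible {f : MvPolynomial ℕ ℕ} (hf : Irreducible (toQ f)) : omega f = 1 := by
  have h0 : toQ f ≠ 0 := hf.ne_zero
  have hp := UniqueFactorizationMonoid.factors_prod h0
  have hirr := UniqueFactorizationMonoid.irreducible_of_factor (a := toQ f)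
  have hassoc : Multiset.Rel Associated (UniqueFactorizationMonoid.factors (toQ f)) {toQ f} := by
    apply UniqueFactorizationMonoid.factors_unique
    · intro x hx
      exact hirr x hx
    · intro x hx
      rw [Multiset.mem_singleton] at hx
      rw [hx]; exact hf
    · simpa using hp
  have := Multiset.card_eq_card_of_rel hassoc
  unfold omega
  rw [this, Multiset.card_singleton]

/-! ### Irreducibility of sums of variable-disjoint polynomials -/

theorem pderiv_ne_zero {f : MvPolynomial ℕ ℚ} {u : ℕ} (hu : u ∈ f.vars) : pderiv u f ≠ 0 := by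
  intro h
  rw [MvPolynomial.mem_vars_iff_mem_support] at hu
  obtain ⟨d, hd, hud⟩ := hu
  have h1 : coeff (d - Finsupp.single u 1) (pderiv u f) = 0 := by rw [h]; simp
  rw [coeff_pderiv] at h1
  have hdu : 1 ≤ d u := by
    rw [Finsupp.mem_support_iff] at hud
    omega
  have h2 : d - Finsupp.single u 1 + Finsupp.single u 1 = d := by
    ext k
    by_cases hk : k = u
    · subst hk; simp; omega
    · simp [Ne.symm hk]
  rw [h2] at h1
  have h3 : coeff d f ≠ 0 := by
    rw [MvPolynomial.mem_support_iff] at hd; exact hd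
  rcases mul_eq_zero.mp h1 with h4 | h4
  · exact h3 h4
  · have h5 : (0:ℚ) < (((d - Finsupp.single u 1 : ℕ →₀ ℕ) u : ℕ) : ℚ) + 1 := by positivity
    exact h5.ne' h4

theorem vars_pderiv_subset (f : MvPolynomial ℕ ℚ) (u : ℕ) : (pderiv u f).vars ⊆ f.vars := by
  intro v hv
  rw [MvPolynomial.mem_vars_iff_mem_support] at hv ⊢
  obtain ⟨d, hd, hvd⟩ := hv
  rw [MvPolynomial.mem_support_iff, coeff_pderiv] at hd
  refine ⟨d + Finsupp.single u 1, ?_, ?_⟩
  · rw [MvPolynomial.mem_support_iff]
    exact left_ne_zero_of_mul hd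
  · rw [Finsupp.mem_support_iff] at hvd ⊢
    simp only [Finsupp.coe_add, Pi.add_apply]
    omega

/-- If `x + y = g * h` where `x`, `y` are nonconstant and have no common variable, and some variable
of `x` does not occur in `h`, then `h` is a unit. -/
theorem isUnit_of_mul {x y g h : MvPolynomial ℕ ℚ} (hxy : Disjoint x.vars y.vars)
    (hy : y.vars.Nonempty) {u : ℕ} (hu : u ∈ x.vars) (huh : u ∉ h.vars) (hgh : x + y = g * h) :
    IsUnit h := by
  have hdisj : ∀ v, v ∈ x.vars → v ∉ y.vars := fun v hv hv' => Finset.disjoint_left.mp hxy hv hv'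
  have key : ∀ (p q : MvPolynomial ℕ ℚ) (w : ℕ), p * h = q → q ≠ 0 → w ∈ h.vars → w ∈ q.vars := by
    intro p q w hq hq0 hw
    rw [MvPolynomial.mem_vars_iff_degreeOf_ne_zero] at hw ⊢
    have hp0 : p ≠ 0 := by rintro rfl; rw [zero_mul] at hq; exact hq0 hq.symm
    have hh0 : h ≠ 0 := by rintro rfl; rw [mul_zero] at hq; exact hq0 hq.symm
    rw [← hq, degreeOf_mul_eq hp0 hh0]
    omega
  have h1 : pderiv u g * h = pderiv u x := by
    have := congrArg (pderiv u) hgh
    rw [map_add, pderiv_mul, pderiv_eq_zero_of_notMem_vars (hdisj u hu),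
      pderiv_eq_zero_of_notMem_vars huh, mul_zero, add_zero, add_zero] at this
    exact this.symm
  have hsub1 : ∀ w ∈ h.vars, w ∈ x.vars := fun w hw =>
    vars_pderiv_subset x u (key _ _ w h1 (pderiv_ne_zero hu) hw)
  obtain ⟨v, hv⟩ := hy
  have hvh : v ∉ h.vars := fun hv' => hdisj v (hsub1 v hv') hv
  have h2 : pderiv v g * h = pderiv v y := by
    have := congrArg (pderiv v) hgh
    rw [map_add, pderiv_mul, pderiv_eq_zero_of_notMem_vars (fun hx => hdisj v hx hv),
      pderiv_eq_zero_of_notMem_vars hvh, mul_zero, add_zero, zero_add] at this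
    exact this.symm
  have hsub2 : ∀ w ∈ h.vars, w ∈ y.vars := fun w hw =>
    vars_pderiv_subset y v (key _ _ w h2 (pderiv_ne_zero hv) hw)
  have hempty : h.vars = ∅ := by
    rw [Finset.eq_empty_iff_forall_notMem]
    intro w hw
    exact hdisj w (hsub1 w hw) (hsub2 w hw)
  rw [MvPolynomial.vars_eq_empty_iff_eq_C] at hempty
  rw [hempty]
  apply IsUnit.map
  apply IsUnit.mk0
  intro hc
  rw [hc, map_zero] at hempty
  rw [hempty, mul_zero] at h1
  exact pderiv_ne_zero hu h1.symm

theorem irreducible_add {x y : MvPolynomial ℕ ℚ} (hxy : Disjoint x.vars y.vars)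
    (hy : y.vars.Nonempty) {u : ℕ} (hu : degreeOf u x = 1) : Irreducible (x + y) := by
  have hux : u ∈ x.vars := by
    rw [MvPolynomial.mem_vars_iff_degreeOf_ne_zero, hu]; norm_num
  have huy : degreeOf u y = 0 := by
    by_contra h
    exact Finset.disjoint_left.mp hxy hux (MvPolynomial.mem_vars_iff_degreeOf_ne_zero.mpr h)
  have hdeg : degreeOf u (x + y) = 1 := by
    rw [degreeOf_add_eq_of_degreeOf_lt (by rw [hu, huy]; norm_num), hu]
  have hne : x + y ≠ 0 := by
    intro h
    rw [h, degreeOf_zero] at hdeg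
    norm_num at hdeg
  constructor
  · intro hunit
    obtain ⟨c, _, hc⟩ := (MvPolynomial.isUnit_iff_eq_C_of_isReduced).mp hunit
    rw [hc, degreeOf_C] at hdeg
    norm_num at hdeg
  · intro g h hgh
    have hg0 : g ≠ 0 := by rintro rfl; rw [zero_mul] at hgh; exact hne hgh
    have hh0 : h ≠ 0 := by rintro rfl; rw [mul_zero] at hgh; exact hne hgh
    have hsum : degreeOf u g + degreeOf u h = 1 := by
      rw [← degreeOf_mul_eq hg0 hh0, ← hgh, hdeg]
    rcases Nat.eq_zero_or_pos (degreeOf u h) with h0 | h0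
    · right
      refine isUnit_of_mul hxy hy hux ?_ hgh
      rw [MvPolynomial.mem_vars_iff_degreeOf_ne_zero]
      simpa using h0
    · left
      rw [mul_comm] at hgh
      refine isUnit_of_mul hxy hy hux ?_ hgh
      rw [MvPolynomial.mem_vars_iff_degreeOf_ne_zero]
      omega

/-! ### Not partition regular over `P_i` -/

theorem vars_nonempty_of_mem {d : ℕ} {f : MvPolynomial ℕ ℕ} (hf : f ∈ P d) : f.vars.Nonempty := by
  rw [Finset.nonempty_iff_ne_empty]
  intro h
  rw [MvPolynomial.vars_eq_empty_iff_eq_C] at h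
  have h1 : coeff 0 f = 0 := hf.2.1
  rw [h1, map_zero] at h
  exact hf.1 h

theorem degreeOf_toQ (f : MvPolynomial ℕ ℕ) (n : ℕ) : degreeOf n (toQ f) = degreeOf n f := by
  classical
  rw [degreeOf_def, degreeOf_def]
  unfold toQ
  rw [MvPolynomial.degrees_map_of_injective _ Nat.cast_injective]

theorem not_regular (i : ℕ) (hi : 1 ≤ i) : ¬ PartitionRegular (sepPattern i) (P i) := by
  intro hreg
  obtain ⟨a, ha, c, hc⟩ := hreg (i + 1)
    (fun f => ⟨omega f.1 % (i + 1), Nat.mod_lt _ (Nat.succ_pos i)⟩)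
  have hx : a (0 : Fin 3) ∈ P i := ha.1 (0 : Fin 3)
  have hy : a (1 : Fin 3) ∈ P i := ha.1 (1 : Fin 3)
  have hz : a (2 : Fin 3) ∈ P i := ha.1 (2 : Fin 3)
  set x : MvPolynomial ℕ ℕ := a (0 : Fin 3) with hxdef
  set y : MvPolynomial ℕ ℕ := a (1 : Fin 3) with hydef
  set z : MvPolynomial ℕ ℕ := a (2 : Fin 3) with hzdef
  have hv0 : value ((sepPattern i).F (0 : Fin 4)) a = x * z := by
    exact value_zero i a
  have hv1 : value ((sepPattern i).F (1 : Fin 4)) a = y * z := by
    exact value_one i a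
  have hv2 : value ((sepPattern i).F (2 : Fin 4)) a = (x + y) * z := by
    exact value_two i a
  have hv3 : value ((sepPattern i).F (3 : Fin 4)) a = x ^ i * y * z := by
    exact value_three i a
  have hc0 := congrArg Fin.val (hc (0 : Fin 4))
  have hc1 := congrArg Fin.val (hc (1 : Fin 4))
  have hc2 := congrArg Fin.val (hc (2 : Fin 4))
  have hc3 := congrArg Fin.val (hc (3 : Fin 4))
  simp only at hc0 hc1 hc2 hc3
  rw [hv0] at hc0
  rw [hv1] at hc1
  rw [hv2] at hc2
  rw [hv3] at hc3
  have hmem : x ^ i * y * z ∈ P i := by rw [← hv3]; exact ha.2 (3 : Fin 4)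
  have hx0 : x ≠ 0 := hx.1
  have hy0 : y ≠ 0 := hy.1
  have hz0 : z ≠ 0 := hz.1
  have hxi0 : x ^ i ≠ 0 := pow_ne_zero i hx0
  -- degrees
  have hdeg : ∀ n, i * degreeOf n x + degreeOf n y + degreeOf n z ≤ i := by
    intro n
    have h1 := hmem.2.2 n
    rw [degreeOf_mul_eq (mul_ne_zero hxi0 hy0) hz0, degreeOf_mul_eq hxi0 hy0,
      degreeOf_pow_eq _ _ _ hx0] at h1
    exact h1
  have hdx : ∀ n, degreeOf n x ≤ 1 := by
    intro n
    by_contra hcon
    push Not at hcon
    have h1 := hdeg n
    have h2 : i * 2 ≤ i * degreeOf n x := Nat.mul_le_mul_left i hcon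
    omega
  have hdxy : ∀ n, degreeOf n x ≠ 0 → degreeOf n y = 0 := by
    intro n hn
    have h1 := hdeg n
    have h2 : i * 1 ≤ i * degreeOf n x := Nat.mul_le_mul_left i (by omega)
    omega
  -- irreducibility
  obtain ⟨u, hu⟩ := vars_nonempty_of_mem hx
  have hu1 : degreeOf u x = 1 := by
    have h1 := MvPolynomial.mem_vars_iff_degreeOf_ne_zero.mp hu
    have h2 := hdx u
    omega
  have hirr : Irreducible (toQ (x + y)) := by
    rw [map_add]
    apply irreducible_add (u := u)
    · rw [Finset.disjoint_left]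
      intro v hv hv'
      rw [MvPolynomial.mem_vars_iff_degreeOf_ne_zero, degreeOf_toQ] at hv hv'
      exact hv' (hdxy v hv)
    · obtain ⟨v, hv⟩ := vars_nonempty_of_mem hy
      refine ⟨v, ?_⟩
      rw [MvPolynomial.mem_vars_iff_degreeOf_ne_zero] at hv ⊢
      rw [degreeOf_toQ]; exact hv
    · rw [degreeOf_toQ, hu1]
  have hxy0 : x + y ≠ 0 := by
    intro h
    apply hirr.ne_zero
    rw [h, map_zero]
  rw [omega_mul hx0 hz0] at hc0
  rw [omega_mul hy0 hz0] at hc1
  rw [omega_mul hxy0 hz0, omega_of_irreducible hirr] at hc2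
  rw [omega_mul (mul_ne_zero hxi0 hy0) hz0, omega_mul hxi0 hy0, omega_pow hx0] at hc3
  have e0 : omega x ≡ 1 [MOD (i + 1)] :=
    Nat.ModEq.add_right_cancel' (omega z) (hc0.trans hc2.symm)
  have e1 : omega y ≡ 1 [MOD (i + 1)] :=
    Nat.ModEq.add_right_cancel' (omega z) (hc1.trans hc2.symm)
  have e3 : i * omega x + omega y ≡ 1 [MOD (i + 1)] :=
    Nat.ModEq.add_right_cancel' (omega z) (hc3.trans hc2.symm)
  have e4 : i * omega x + omega y ≡ i * 1 + 1 [MOD (i + 1)] := (e0.mul_left i).add e1
  have e5 : i * 1 + 1 ≡ 1 [MOD (i + 1)] := e4.symm.trans e3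
  have e6 : (0 : ℕ) ≡ 1 [MOD (i + 1)] := by
    refine Nat.ModEq.trans ?_ e5
    rw [mul_one]
    exact (Nat.modEq_zero_iff_dvd.mpr (dvd_refl _)).symm
  have h7 : (0 : ℕ) % (i + 1) = 1 % (i + 1) := e6
  rw [Nat.zero_mod, Nat.mod_eq_of_lt (by omega)] at h7
  omega

/-! ### A finite form of Schur's theorem -/

theorem schur (C : Type) [Finite C] :
    ∃ N : ℕ, ∀ c : ℕ → C, ∃ p q : ℕ, 0 < p ∧ 0 < q ∧ p ≠ q ∧ p + q ≤ N ∧
      c p = c q ∧ c q = c (p + q) := by
  by_contra hcon
  push Not at hcon
  choose K hK using hcon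
  let U : Ultrafilter ℕ := Filter.hyperfilter ℕ
  have hlim : ∀ k : ℕ, ∃ j : C, ∀ᶠ n in (U : Filter ℕ), K n k = j := by
    intro k
    obtain ⟨j, hj⟩ := Ultrafilter.eq_pure_of_finite (U.map (fun n => K n k))
    refine ⟨j, ?_⟩
    have h1 : {j} ∈ U.map (fun n => K n k) := by
      rw [hj]
      exact Set.mem_singleton j
    exact h1
  choose χ hχ using hlim
  let s : Set (Set ℕ+) := Set.range (fun j : C => {k : ℕ+ | χ k = j})
  obtain ⟨c, hcs, a, ha⟩ := Hindman.exists_FS_of_finite_cover s (Set.finite_range _) (by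
    intro k _
    exact ⟨{k' : ℕ+ | χ k' = χ k}, ⟨χ k, rfl⟩, rfl⟩)
  obtain ⟨j, rfl⟩ := hcs
  have hpair : ∃ p q : ℕ+, p ≠ q ∧ χ p = j ∧ χ q = j ∧ χ (p + q : ℕ) = j := by
    have hp : χ a.head = j := ha (Hindman.FS.head' a)
    by_cases h : a.head = a.tail.head
    · refine ⟨a.head, a.tail.head + a.tail.tail.head, ?_, hp, ?_, ?_⟩
      · rw [h]
        intro h2
        have h3 := congrArg PNat.val h2
        rw [PNat.add_coe] at h3
        have := a.tail.tail.head.pos
        omega
      · exact ha (Hindman.FS.tail' a _ (Hindman.FS.cons' _ _ (Hindman.FS.head' _)))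
      · have := ha (Hindman.FS.cons' a _ (Hindman.FS.cons' _ _ (Hindman.FS.head' _)))
        simpa using this
    · refine ⟨a.head, a.tail.head, h, hp, ?_, ?_⟩
      · exact ha (Hindman.FS.tail' a _ (Hindman.FS.head' _))
      · have := ha (Hindman.FS.cons' a _ (Hindman.FS.head' _))
        simpa using this
  obtain ⟨p, q, hpq, h1, h2, h3⟩ := hpair
  have hev : ∀ᶠ n in (U : Filter ℕ), K n p = χ p ∧ K n q = χ q ∧ K n (p + q) = χ (p + q : ℕ) ∧
      (p + q : ℕ) ≤ n := by
    have hat : ∀ᶠ n in (U : Filter ℕ), (p + q : ℕ) ≤ n :=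
      Nat.hyperfilter_le_atTop (Filter.eventually_ge_atTop (p + q : ℕ))
    filter_upwards [hχ p, hχ q, hχ (p + q : ℕ), hat] with n k1 k2 k3 k4
    exact ⟨k1, k2, k3, k4⟩
  obtain ⟨n, k1, k2, k3, k4⟩ := hev.exists
  exact hK n p q p.pos q.pos (fun h => hpq (PNat.coe_injective h)) k4
    (by rw [k1, k2, h1, h2]) (by rw [k2, k3, h2, h3])

/-! ### Partition regular over `P_j` for `j > i` -/

/-- Exponent vector supported on `{0, ..., n}`. -/
noncomputable def res (n : ℕ) (f : ℕ → ℕ) : ℕ →₀ ℕ :=
  Finsupp.onFinset (Finset.range (n + 1)) (fun k => if k ≤ n then f k else 0)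
    (by
      intro k hk
      by_contra h
      apply hk
      rw [Finset.mem_range] at h
      rw [if_neg (by omega)])

theorem res_apply (n : ℕ) (f : ℕ → ℕ) (k : ℕ) : res n f k = if k ≤ n then f k else 0 := rfl

theorem monomial_mem {d : ℕ} {s : ℕ →₀ ℕ} {c : ℕ} (hc : c ≠ 0) (k₀ : ℕ) (hs : s k₀ ≠ 0)
    (hd : ∀ k, s k ≤ d) : (monomial s c : MvPolynomial ℕ ℕ) ∈ P d := by
  have hs0 : s ≠ 0 := by
    rintro rfl
    exact hs rfl
  refine ⟨?_, ?_, ?_⟩
  · rw [Ne, MvPolynomial.monomial_eq_zero]; exact hc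
  · rw [MvPolynomial.constantCoeff_monomial, if_neg hs0]
  · intro n
    rw [degreeOf_monomial_eq _ _ hc]
    exact hd n

theorem strongly_regular (i j : ℕ) (hi : 1 ≤ i) (hij : i < j) :
    StronglyPartitionRegular (sepPattern i) (P j) := by
  classical
  intro r χ
  let χ' : MvPolynomial ℕ ℕ → Option (Fin r) :=
    fun f => if h : f ∈ P j then some (χ ⟨f, h⟩) else none
  have hχ' : ∀ f (hf : f ∈ P j), χ' f = some (χ ⟨f, hf⟩) := fun f hf => dif_pos hf
  obtain ⟨N, hN⟩ := schur (Option (Fin r))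
  obtain ⟨L, hLdef⟩ : ∃ L : ℕ, L = N.factorial := ⟨_, rfl⟩
  have hLpos : 0 < L := by rw [hLdef]; exact Nat.factorial_pos N
  obtain ⟨n, hndef⟩ : ∃ n : ℕ, n = Fintype.card (Fin (N + 1) → Option (Fin r)) := ⟨_, rfl⟩
  let E : ℕ → (ℕ →₀ ℕ) := fun a => res n (fun k => if k = 0 then 1 else if k ≤ a then i + 1 else 1)
  have hEapp : ∀ a k, E a k = if k ≤ n then (if k = 0 then 1 else if k ≤ a then i + 1 else 1) else 0 :=
    fun a k => rfl
  obtain ⟨a, b, hab, hbn, hΓ⟩ : ∃ a b : ℕ, a < b ∧ b ≤ n ∧ ∀ k ≤ N,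
      χ' (monomial (E a) (k * L ^ (n + i * a))) = χ' (monomial (E b) (k * L ^ (n + i * b))) := by
    let Γ : Fin (n + 1) → (Fin (N + 1) → Option (Fin r)) :=
      fun a k => χ' (monomial (E a) ((k : ℕ) * L ^ (n + i * (a : ℕ))))
    obtain ⟨a0, b0, hne, h⟩ := Fintype.exists_ne_map_eq_of_card_lt Γ (by
      rw [Fintype.card_fin, ← hndef]; omega)
    rcases lt_or_gt_of_ne hne with hlt | hlt
    · refine ⟨a0, b0, hlt, by have := b0.2; omega, ?_⟩
      intro k hk
      have := congrFun h ⟨k, by omega⟩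
      exact this
    · refine ⟨b0, a0, hlt, by have := a0.2; omega, ?_⟩
      intro k hk
      have := congrFun h ⟨k, by omega⟩
      exact this.symm
  obtain ⟨p, q, hp, hq, hpq, hpqN, hc1, hc2⟩ :=
    hN (fun k => χ' (monomial (E a) (k * L ^ (n + i * a))))
  obtain ⟨L', hL'⟩ : p ∣ L := by
    rw [hLdef]
    exact Nat.dvd_factorial hp (by omega)
  obtain ⟨cs, hcsdef⟩ : ∃ cs : ℕ, cs = L' * L ^ (b - a - 1) := ⟨_, rfl⟩
  have hcs : p * cs = L ^ (b - a) := by
    rw [hcsdef, ← mul_assoc, ← hL', ← pow_succ']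
    congr 1
    omega
  have hcspos : 0 < cs := by
    apply Nat.pos_of_ne_zero
    rintro h0
    rw [h0, mul_zero] at hcs
    exact (pow_pos hLpos (b - a)).ne hcs
  obtain ⟨cz, hczdef⟩ : ∃ cz : ℕ, cz = p * L ^ (n + i * a - (b - a)) := ⟨_, rfl⟩
  have hczpos : 0 < cz := by
    rw [hczdef]
    exact mul_pos hp (pow_pos hLpos _)
  have hcz : cs * cz = L ^ (n + i * a) := by
    calc cs * cz = (p * cs) * L ^ (n + i * a - (b - a)) := by rw [hczdef]; ring
      _ = L ^ (n + i * a) := by
        rw [hcs, ← pow_add]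
        congr 1
        omega
  let es : ℕ →₀ ℕ := res n (fun k => if a < k ∧ k ≤ b then 1 else 0)
  let ez : ℕ →₀ ℕ := res n (fun k => if k = 0 then 1 else if k ≤ a then i + 1 else
    if k ≤ b then 0 else 1)
  have hes : ∀ k, es k = if k ≤ n then (if a < k ∧ k ≤ b then 1 else 0) else 0 := fun k => rfl
  have hez : ∀ k, ez k = if k ≤ n then (if k = 0 then 1 else if k ≤ a then i + 1 else
    if k ≤ b then 0 else 1) else 0 := fun k => rfl
  have hsum1 : es + ez = E a := by
    ext k
    rw [Finsupp.add_apply, hes, hez, hEapp]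
    split_ifs <;> omega
  have hsum2 : i • es + es + ez = E b := by
    ext k
    rw [Finsupp.add_apply, Finsupp.add_apply, Finsupp.smul_apply, hes, hez, hEapp, smul_eq_mul]
    split_ifs <;> omega
  obtain ⟨x, hx⟩ : ∃ x : MvPolynomial ℕ ℕ, x = monomial es (p * cs) := ⟨_, rfl⟩
  obtain ⟨y, hy⟩ : ∃ y : MvPolynomial ℕ ℕ, y = monomial es (q * cs) := ⟨_, rfl⟩
  obtain ⟨z, hz⟩ : ∃ z : MvPolynomial ℕ ℕ, z = monomial ez cz := ⟨_, rfl⟩
  have v0 : x * z = monomial (E a) (p * L ^ (n + i * a)) := by
    rw [hx, hz, monomial_mul, hsum1, ← hcz, mul_assoc]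
  have v1 : y * z = monomial (E a) (q * L ^ (n + i * a)) := by
    rw [hy, hz, monomial_mul, hsum1, ← hcz, mul_assoc]
  have v2 : (x + y) * z = monomial (E a) ((p + q) * L ^ (n + i * a)) := by
    rw [add_mul, v0, v1, ← map_add, add_mul]
  have v3 : x ^ i * y * z = monomial (E b) (q * L ^ (n + i * b)) := by
    rw [hx, hy, hz, monomial_pow, monomial_mul, monomial_mul, hsum2]
    congr 1
    calc (p * cs) ^ i * (q * cs) * cz = q * (cs * cz) * (p * cs) ^ i := by ring
      _ = q * L ^ (n + i * b) := by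
        rw [hcz, hcs, ← pow_mul, mul_assoc, ← pow_add]
        congr 2
        obtain ⟨t, ht⟩ : ∃ t, b = a + t := ⟨b - a, by omega⟩
        subst ht
        rw [Nat.add_sub_cancel_left]
        ring
  have hLn : ∀ e : ℕ, L ^ e ≠ 0 := fun e => (pow_pos hLpos e).ne'
  have hxm : x ∈ P j := by
    rw [hx]
    apply monomial_mem (by positivity) b
    · rw [hes, if_pos hbn, if_pos ⟨hab, le_refl b⟩]; norm_num
    · intro k; rw [hes]; split_ifs <;> omega
  have hym : y ∈ P j := by
    rw [hy]
    apply monomial_mem (by positivity) b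
    · rw [hes, if_pos hbn, if_pos ⟨hab, le_refl b⟩]; norm_num
    · intro k; rw [hes]; split_ifs <;> omega
  have hzm : z ∈ P j := by
    rw [hz]
    apply monomial_mem hczpos.ne' 0
    · rw [hez, if_pos (Nat.zero_le n), if_pos rfl]; norm_num
    · intro k; rw [hez]; split_ifs <;> omega
  have hEm : ∀ (a' c : ℕ), c ≠ 0 → (monomial (E a') c : MvPolynomial ℕ ℕ) ∈ P j := by
    intro a' c hc
    apply monomial_mem hc 0
    · rw [hEapp, if_pos (Nat.zero_le n), if_pos rfl]; norm_num
    · intro k; rw [hEapp]; split_ifs <;> omega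
  have m0 : x * z ∈ P j := by rw [v0]; exact hEm _ _ (mul_ne_zero hp.ne' (hLn _))
  have m1 : y * z ∈ P j := by rw [v1]; exact hEm _ _ (mul_ne_zero hq.ne' (hLn _))
  have m2 : (x + y) * z ∈ P j := by rw [v2]; exact hEm _ _ (mul_ne_zero (by omega) (hLn _))
  have m3 : x ^ i * y * z ∈ P j := by rw [v3]; exact hEm _ _ (mul_ne_zero hq.ne' (hLn _))
  -- colours
  have c01 : χ' (x * z) = χ' (y * z) := by rw [v0, v1]; exact hc1
  have c12 : χ' (y * z) = χ' ((x + y) * z) := by rw [v1, v2]; exact hc2
  have c13 : χ' (y * z) = χ' (x ^ i * y * z) := by rw [v1, v3]; exact hΓ q (by omega)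
  let T : Fin 3 → MvPolynomial ℕ ℕ := ![x, y, z]
  have w0 : value ((sepPattern i).F (0 : Fin 4)) T = x * z := value_zero i T
  have w1 : value ((sepPattern i).F (1 : Fin 4)) T = y * z := value_one i T
  have w2 : value ((sepPattern i).F (2 : Fin 4)) T = (x + y) * z := value_two i T
  have w3 : value ((sepPattern i).F (3 : Fin 4)) T = x ^ i * y * z := value_three i T
  have hcopy : IsCopy (sepPattern i) (P j) T := by
    constructor
    · intro t
      change Fin 3 at t
      fin_cases t
      · exact hxm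
      · exact hym
      · exact hzm
    · intro l
      change Fin 4 at l
      fin_cases l
      · exact w0.symm ▸ m0
      · exact w1.symm ▸ m1
      · exact w2.symm ▸ m2
      · exact w3.symm ▸ m3
  have hcol : ∀ (f g : MvPolynomial ℕ ℕ) (hf : f ∈ P j) (hg : g ∈ P j), χ' f = χ' g →
      χ ⟨f, hf⟩ = χ ⟨g, hg⟩ := by
    intro f g hf hg h
    rw [hχ' f hf, hχ' g hg] at h
    exact Option.some.inj h
  have hcinj : ∀ (s : ℕ →₀ ℕ) (c c' : ℕ),
      (monomial s c : MvPolynomial ℕ ℕ) = monomial s c' → c = c' := by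
    intro s c c' h
    have h1 := congrArg (coeff s) h
    simpa using h1
  have hEinj : ∀ c c' : ℕ, (monomial (E a) c : MvPolynomial ℕ ℕ) = monomial (E a) c' → c = c' :=
    hcinj (E a)
  have hmono : ∀ (s t : ℕ →₀ ℕ) (c c' : ℕ), c ≠ 0 →
      (monomial s c : MvPolynomial ℕ ℕ) = monomial t c' → s = t := by
    intro s t c c' hc h
    rcases (MvPolynomial.monomial_eq_monomial_iff _ _ _ _).mp h with h1 | h1
    · exact h1.1
    · exact absurd h1.1 hc
  have hLpow : ∀ c c' e : ℕ, c * L ^ e = c' * L ^ e → c = c' := fun c c' e h =>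
    Nat.eq_of_mul_eq_mul_right (pow_pos hLpos e) h
  have hEab : E a ≠ E b := by
    intro h
    have h1 := DFunLike.congr_fun h b
    rw [hEapp, hEapp, if_pos hbn, if_neg (by omega), if_neg (by omega), if_pos hbn,
      if_neg (by omega), if_pos (le_refl b)] at h1
    omega
  have hesz : es ≠ ez := by
    intro h
    have h1 := DFunLike.congr_fun h 0
    rw [hes, hez, if_pos (Nat.zero_le n), if_neg (by omega), if_pos (Nat.zero_le n),
      if_pos rfl] at h1
    omega
  -- the entries are distinct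
  have nxy : x ≠ y := by
    intro h
    rw [hx, hy] at h
    have h1 := hcinj es _ _ h
    exact hpq (Nat.eq_of_mul_eq_mul_right hcspos h1)
  have nxz : x ≠ z := by
    intro h
    rw [hx, hz] at h
    exact hesz (hmono _ _ _ _ (by positivity) h)
  have nyz : y ≠ z := by
    intro h
    rw [hy, hz] at h
    exact hesz (hmono _ _ _ _ (by positivity) h)
  -- the values are distinct
  have n01 : x * z ≠ y * z := by
    rw [v0, v1]
    intro h
    exact hpq (hLpow _ _ _ (hEinj _ _ h))
  have n02 : x * z ≠ (x + y) * z := by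
    rw [v0, v2]
    intro h
    have := hLpow _ _ _ (hEinj _ _ h)
    omega
  have n12 : y * z ≠ (x + y) * z := by
    rw [v1, v2]
    intro h
    have := hLpow _ _ _ (hEinj _ _ h)
    omega
  have n03 : x * z ≠ x ^ i * y * z := by
    rw [v0, v3]
    intro h
    exact hEab (hmono _ _ _ _ (mul_ne_zero hp.ne' (hLn _)) h)
  have n13 : y * z ≠ x ^ i * y * z := by
    rw [v1, v3]
    intro h
    exact hEab (hmono _ _ _ _ (mul_ne_zero hq.ne' (hLn _)) h)
  have n23 : (x + y) * z ≠ x ^ i * y * z := by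
    rw [v2, v3]
    intro h
    exact hEab (hmono _ _ _ _ (mul_ne_zero (by omega) (hLn _)) h)
  refine ⟨T, hcopy, χ ⟨x * z, m0⟩, ?_, ?_, ?_⟩
  · intro l
    apply hcol
    change Fin 4 at l
    fin_cases l
    · exact congrArg χ' w0
    · exact (congrArg χ' w1).trans c01.symm
    · exact (congrArg χ' w2).trans (c01.trans c12).symm
    · exact (congrArg χ' w3).trans (c01.trans c13).symm
  · have hT : ∀ s t : Fin 3, T s = T t → s = t := by
      intro s t hst
      fin_cases s <;> fin_cases t <;>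
        first
        | rfl
        | exact absurd hst nxy
        | exact absurd hst nxz
        | exact absurd hst nyz
        | exact absurd hst nxy.symm
        | exact absurd hst nxz.symm
        | exact absurd hst nyz.symm
    exact hT
  · have hV : ∀ l : Fin 4, value ((sepPattern i).F l) T =
        (![x * z, y * z, (x + y) * z, x ^ i * y * z] : Fin 4 → MvPolynomial ℕ ℕ) l := by
      intro l
      fin_cases l
      · exact w0
      · exact w1
      · exact w2
      · exact w3
    have hV' : ∀ l l' : Fin 4, value ((sepPattern i).F l) T = value ((sepPattern i).F l') T →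
        l = l' := by
      intro l l' h
      rw [hV, hV] at h
      fin_cases l <;> fin_cases l' <;>
        first
        | rfl
        | exact absurd h n01
        | exact absurd h n02
        | exact absurd h n03
        | exact absurd h n12
        | exact absurd h n13
        | exact absurd h n23
        | exact absurd h n01.symm
        | exact absurd h n02.symm
        | exact absurd h n03.symm
        | exact absurd h n12.symm
        | exact absurd h n13.symm
        | exact absurd h n23.symm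
    exact hV'

theorem appears (i : ℕ) (hi : 1 ≤ i) : AppearsIn (sepPattern i) (P i) := by
  have hX : ∀ k : ℕ, (X k : MvPolynomial ℕ ℕ) ∈ P i := by
    intro k
    apply monomial_mem one_ne_zero k
    · rw [Finsupp.single_eq_same]; norm_num
    · intro l
      rw [Finsupp.single_apply]
      split_ifs <;> omega
  have hmul : ∀ e : ℕ, 1 ≤ e → e ≤ i → (X 0 ^ e * X 1 * X 2 : MvPolynomial ℕ ℕ) ∈ P i := by
    intro e he hei
    have h1 : (X 0 ^ e * X 1 * X 2 : MvPolynomial ℕ ℕ) =
        monomial (e • Finsupp.single 0 1 + Finsupp.single 1 1 + Finsupp.single 2 1) 1 := by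
      rw [X, X, X, monomial_pow, monomial_mul, monomial_mul]
      simp
    rw [h1]
    apply monomial_mem one_ne_zero 1
    · simp
    · intro l
      simp only [Finsupp.add_apply, Finsupp.smul_apply, Finsupp.single_apply, smul_eq_mul]
      split_ifs <;> omega
  have h02 : (X 0 * X 2 : MvPolynomial ℕ ℕ) ∈ P i := by
    have h1 : (X 0 * X 2 : MvPolynomial ℕ ℕ) =
        monomial (Finsupp.single 0 1 + Finsupp.single 2 1) 1 := by
      rw [X, X, monomial_mul]
      simp
    rw [h1]
    apply monomial_mem one_ne_zero 0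
    · simp
    · intro l
      simp only [Finsupp.add_apply, Finsupp.single_apply]
      split_ifs <;> omega
  have h12 : (X 1 * X 2 : MvPolynomial ℕ ℕ) ∈ P i := by
    have h1 : (X 1 * X 2 : MvPolynomial ℕ ℕ) =
        monomial (Finsupp.single 1 1 + Finsupp.single 2 1) 1 := by
      rw [X, X, monomial_mul]
      simp
    rw [h1]
    apply monomial_mem one_ne_zero 1
    · simp
    · intro l
      simp only [Finsupp.add_apply, Finsupp.single_apply]
      split_ifs <;> omega
  have hadd : ∀ f g : MvPolynomial ℕ ℕ, f ∈ P i → g ∈ P i → f + g ∈ P i := by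
    intro f g hf hg
    refine ⟨?_, ?_, ?_⟩
    · intro h
      apply hf.1
      ext m
      have h2 := congrArg (coeff m) h
      rw [coeff_add, coeff_zero] at h2
      rw [coeff_zero]
      omega
    · rw [map_add, hf.2.1, hg.2.1]
    · intro n
      exact (degreeOf_add_le n f g).trans (max_le (hf.2.2 n) (hg.2.2 n))
  let T : Fin 3 → MvPolynomial ℕ ℕ := ![X 0, X 1, X 2]
  refine ⟨T, ?_, ?_⟩
  · intro t
    change Fin 3 at t
    fin_cases t
    · exact hX 0
    · exact hX 1
    · exact hX 2
  · intro l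
    change Fin 4 at l
    fin_cases l
    · exact (value_zero i T).symm ▸ h02
    · exact (value_one i T).symm ▸ h12
    · have : (X 0 + X 1) * X 2 ∈ P i := by rw [add_mul]; exact hadd _ _ h02 h12
      exact (value_two i T).symm ▸ this
    · exact (value_three i T).symm ▸ (hmul i hi le_rfl)

/-- **Main theorem.** For all `1 ≤ i < j` there is a pattern that appears in `P_i`, is partition
regular over `P_j` (even with copies having distinct entries and distinct values), and is not
partition regular over `P_i`. -/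
theorem result : ∀ i j : ℕ, 1 ≤ i → i < j →
    ∃ 𝓕 : Pattern, AppearsIn 𝓕 (P i) ∧ PartitionRegular 𝓕 (P j) ∧ ¬ PartitionRegular 𝓕 (P i) ∧
      StronglyPartitionRegular 𝓕 (P j) := by
  intro i j hi hij
  refine ⟨sepPattern i, appears i hi, ?_, not_regular i hi, strongly_regular i j hi hij⟩
  intro r χ
  obtain ⟨a, h, c, hc, _⟩ := strongly_regular i j hi hij r χ
  exact ⟨a, h, c, hc⟩

end Pool.Agent.Results.MP_b358a5_co.Separation
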